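import Pool.Agent.H84.SM.Targets2
import Pool.Agent.H64.SC.Api

/-!
# MP_70ba79_ag, board `smc_modules`, row PRM: restriction to the field generated by the coordinates
-/

set_option autoImplicit false

namespace Pool.Agent.H10.SM

open MvPolynomial SC Pool.Agent.H27.LV Pool.Agent.H84.SM

/-! ### Derivations on intermediate fields -/

section Der

variable {k K : Type} [Field k] [Field K] [Algebra k K]

/-- an intermediate field generated by a set is stable under a derivation which maps the
generators into it -/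
theorem der_adjoin (D : Derivation k K K) (s : Set K) (F : IntermediateField k K)
    (hs : s ⊆ F) (h : ∀ y ∈ s, D y ∈ F) : ∀ y ∈ IntermediateField.adjoin k s, y ∈ F ∧ D y ∈ F := by
  intro y hy
  induction hy using IntermediateField.adjoin_induction with
  | mem y hy => exact ⟨hs hy, h y hy⟩
  | algebraMap y =>
    refine ⟨F.algebraMap_mem y, ?_⟩
    rw [D.map_algebraMap]
    exact F.zero_mem
  | add y z _ _ h1 h2 =>
    refine ⟨F.add_mem h1.1 h2.1, ?_⟩
    rw [map_add]
    exact F.add_mem h1.2 h2.2
  | inv y _ h1 =>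
    refine ⟨F.inv_mem h1.1, ?_⟩
    rw [D.leibniz_inv, smul_eq_mul]
    exact F.mul_mem (F.neg_mem (pow_mem (F.inv_mem h1.1) 2)) h1.2
  | mul y z _ _ h1 h2 =>
    refine ⟨F.mul_mem h1.1 h2.1, ?_⟩
    rw [D.leibniz, smul_eq_mul, smul_eq_mul]
    exact F.add_mem (F.mul_mem h1.1 h2.2) (F.mul_mem h2.1 h1.2)

/-- the derivative of the value of a polynomial with coefficients in a stable field -/
theorem der_aeval (D : Derivation k K K) (E F : IntermediateField k K)
    (hE : ∀ y ∈ E, D y ∈ F) (z : K) (hz : z ∈ F) (P : Polynomial E) :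
    ∃ c ∈ F, D (Polynomial.aeval z P) = c + Polynomial.aeval z (Polynomial.derivative P) * D z := by
  induction P using Polynomial.induction_on' with
  | add P Q hP hQ =>
    obtain ⟨c, hc, h1⟩ := hP
    obtain ⟨c', hc', h2⟩ := hQ
    refine ⟨c + c', F.add_mem hc hc', ?_⟩
    rw [map_add, map_add, h1, h2, Polynomial.derivative_add, map_add]
    ring
  | monomial n a =>
    refine ⟨z ^ n * D (a : K), F.mul_mem (pow_mem hz n) (hE _ a.2), ?_⟩
    rw [Polynomial.aeval_monomial, Polynomial.derivative_monomial, Polynomial.aeval_monomial]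
    have h1 : (algebraMap E K a) = (a : K) := rfl
    have h3 : (algebraMap E K (a * (n : E))) = (a : K) * (n : K) := by
      rw [(algebraMap E K).map_mul, map_natCast (algebraMap E K), h1]
    rw [h3, h1, D.leibniz, D.leibniz_pow, smul_eq_mul, smul_eq_mul, smul_eq_mul,
      nsmul_eq_mul]
    ring

/-- an element algebraic over a stable field has its derivative in the field it generates -/
theorem der_alg [CharZero k] (D : Derivation k K K) (E F : IntermediateField k K) (hEF : E ≤ F)
    (hE : ∀ y ∈ E, D y ∈ F) (z : K) (hz : z ∈ F) (hi : IsIntegral E z) : D z ∈ F := by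
  have hsep : (minpoly E z).Separable := (minpoly.irreducible hi).separable
  have h2 := hsep.aeval_derivative_ne_zero (minpoly.aeval E z)
  obtain ⟨c, hc, h1⟩ := der_aeval D E F hE z hz (minpoly E z)
  rw [minpoly.aeval, map_zero] at h1
  have h3 : Polynomial.aeval z (Polynomial.derivative (minpoly E z)) ∈ F := by
    have : ∀ P : Polynomial E, Polynomial.aeval z P ∈ F := by
      intro P
      induction P using Polynomial.induction_on' with
      | add P Q hP hQ =>
        rw [map_add]
        exact F.add_mem hP hQ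
      | monomial n a =>
        rw [Polynomial.aeval_monomial]
        exact F.mul_mem (hEF a.2) (pow_mem hz n)
    exact this _
  have h4 : D z = -c * (Polynomial.aeval z (Polynomial.derivative (minpoly E z)))⁻¹ := by
    rw [eq_mul_inv_iff_mul_eq₀ h2]
    linear_combination -h1
  rw [h4]
  exact F.mul_mem (F.neg_mem hc) (F.inv_mem h3)

/-- algebraicity over `k(x)` -/
theorem alg_adjoin (h1 : Algebra.trdeg k K = 1) (x : K)
    (hx : Transcendental k x) : Algebra.IsAlgebraic (IntermediateField.adjoin k {x}) K := by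
  set E := IntermediateField.adjoin k {x} with hE
  have hxE : x ∈ E := IntermediateField.mem_adjoin_simple_self k x
  have h2 : Algebra.trdeg k E ≠ 0 := by
    rw [trdeg_ne_zero_iff]
    refine ⟨⟨⟨x, hxE⟩, ?_⟩⟩
    intro halg
    exact hx (halg.algebraMap (A := K))
  have h3 := trdeg_add_eq k E (A := K)
  rw [h1] at h3
  have h4 : Algebra.trdeg E K = 0 := by
    by_contra h
    have h5 : (1 : Cardinal) ≤ Algebra.trdeg k E := Cardinal.one_le_iff_ne_zero.2 h2
    have h6 : (1 : Cardinal) ≤ Algebra.trdeg E K := Cardinal.one_le_iff_ne_zero.2 h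
    have h7 : (1 + 1 : Cardinal) ≤ 1 := (add_le_add h5 h6).trans h3.le
    have h8 : ((2 : ℕ) : Cardinal) ≤ ((1 : ℕ) : Cardinal) := by
      have : ((2 : ℕ) : Cardinal) = 1 + 1 := by norm_num
      rw [this, Nat.cast_one]
      exact h7
    have := Nat.cast_le.1 h8
    omega
  rwa [trdeg_eq_zero_iff] at h4

/-- the kernel of a nonzero derivation -/
theorem der_ne [CharZero k] (h1 : Algebra.trdeg k K = 1) (x : K) (hx : Transcendental k x)
    (D : Derivation k K K) (hD : D ≠ 0) : D x ≠ 0 := by
  intro h0
  apply hD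
  ext z
  have hal := alg_adjoin h1 x hx
  let E := IntermediateField.adjoin k {x}
  have hE : ∀ y ∈ E, D y = 0 := by
    intro y hy
    induction hy using IntermediateField.adjoin_induction with
    | mem y hy => rw [Set.mem_singleton_iff.1 hy, h0]
    | algebraMap y => exact D.map_algebraMap y
    | add y z _ _ h1 h2 => rw [map_add, h1, h2, add_zero]
    | inv y _ h1 => rw [D.leibniz_inv, h1, smul_zero]
    | mul y z _ _ h1 h2 => rw [D.leibniz, h1, h2, smul_zero, smul_zero, add_zero]
  have hi : IsIntegral E z := (hal.isAlgebraic z).isIntegral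
  have hsep : (minpoly E z).Separable := (minpoly.irreducible hi).separable
  have h2 := hsep.aeval_derivative_ne_zero (minpoly.aeval E z)
  have h3 : ∀ P : Polynomial E,
      D (Polynomial.aeval z P) = Polynomial.aeval z (Polynomial.derivative P) * D z := by
    intro P
    induction P using Polynomial.induction_on' with
    | add P Q hP hQ => rw [map_add, map_add, hP, hQ, Polynomial.derivative_add, map_add]; ring
    | monomial n a =>
      rw [Polynomial.aeval_monomial, Polynomial.derivative_monomial, Polynomial.aeval_monomial]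
      have h1 : (algebraMap E K a) = (a : K) := rfl
      have h3 : (algebraMap E K (a * (n : E))) = (a : K) * (n : K) := by
        rw [(algebraMap E K).map_mul, map_natCast (algebraMap E K), h1]
      rw [h3, h1, D.leibniz, D.leibniz_pow, hE _ a.2, smul_eq_mul, smul_eq_mul,
        smul_eq_mul, nsmul_eq_mul]
      ring
  have h4 := h3 (minpoly E z)
  rw [minpoly.aeval, map_zero] at h4
  rcases mul_eq_zero.1 h4.symm with h | h
  · exact absurd h h2
  · exact h

end Der

/-! ### Places -/

section Pl

variable {k K0 K : Type} [Field k] [Field K0] [Algebra k K0] [Field K] [Algebra k K]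

theorem pole_ext (ι : K0 →ₐ[k] K) (w : DV k K0) (v : DV k K) (e : ℕ)
    (h : ∀ z, v.ord (ι z) = e * w.ord z) (x0 : Fin 3 → K0) (x : Fin 3 → K)
    (hx : ∀ i, ι (x0 i) = x i) : poleOrder v x = e * poleOrder w x0 := by
  have h1 : ∀ i, (-(v.ord (x i))).toNat = e * (-(w.ord (x0 i))).toNat := by
    intro i
    rw [← hx, h]
    rcases le_total 0 (-(w.ord (x0 i))) with h2 | h2
    · obtain ⟨m, hm⟩ := Int.eq_ofNat_of_zero_le h2
      have h3 : -((e : ℤ) * w.ord (x0 i)) = ((e * m : ℕ) : ℤ) := by
        rw [Nat.cast_mul, ← hm]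
        ring
      rw [h3, hm, Int.toNat_natCast, Int.toNat_natCast]
    · have h3 : -((e : ℤ) * w.ord (x0 i)) ≤ 0 := by
        have : 0 ≤ w.ord (x0 i) := by omega
        have := mul_nonneg (Int.natCast_nonneg e) this
        omega
      rw [Int.toNat_of_nonpos h3, Int.toNat_of_nonpos h2, mul_zero]
  unfold poleOrder
  simp_rw [h1]
  rcases Nat.eq_zero_or_pos e with he | he
  · subst he
    simp
  apply le_antisymm
  · apply Finset.sup_le
    intro i _
    exact Nat.mul_le_mul_left e (Finset.le_sup (f := fun i => (-(w.ord (x0 i))).toNat)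
      (Finset.mem_univ i))
  · obtain ⟨i, _, hi⟩ := Finset.exists_mem_eq_sup (Finset.univ : Finset (Fin 3)) ⟨0, by simp⟩
      (fun i => (-(w.ord (x0 i))).toNat)
    rw [hi]
    exact Finset.le_sup (f := fun i => e * (-(w.ord (x0 i))).toNat) (Finset.mem_univ i)

theorem place_inj (ι : K0 →ₐ[k] K) (w w' : DV k K0) (v : DV k K) (e e' : ℕ) (he : 0 < e)
    (he' : 0 < e')
    (h : ∀ z, v.ord (ι z) = e * w.ord z) (h' : ∀ z, v.ord (ι z) = e' * w'.ord z) : w = w' := by
  have h1 : ∀ z, (e : ℤ) * w.ord z = e' * w'.ord z := fun z => by rw [← h, h']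
  obtain ⟨z, _, hz⟩ := w.ord_surj
  obtain ⟨z', _, hz'⟩ := w'.ord_surj
  have h2 : (e' : ℤ) ∣ e := ⟨w'.ord z, by rw [← h1, hz, mul_one]⟩
  have h3 : (e : ℤ) ∣ e' := ⟨w.ord z', by rw [h1, hz', mul_one]⟩
  have h4 : e = e' := Nat.dvd_antisymm (Int.natCast_dvd_natCast.1 h3) (Int.natCast_dvd_natCast.1 h2)
  subst h4
  have h5 : (e : ℤ) ≠ 0 := by omega
  apply DV.ext
  funext y
  exact mul_left_cancel₀ h5 (h1 y)

end Pl

theorem mem_range_of_alg {k K : Type} [Field k] [IsAlgClosed k] [Field K] [Algebra k K]
    {z : K} (hz : IsAlgebraic k z) : z ∈ Set.range (algebraMap k K) := by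
  have hint : IsIntegral k z := hz.isIntegral
  have h1 : (minpoly k z).degree = 1 := IsAlgClosed.degree_eq_one_of_irreducible k
    (minpoly.irreducible hint)
  obtain ⟨c, hc⟩ := minpoly.mem_range_of_degree_eq_one k z h1
  exact ⟨c, hc⟩

/-- the derivation of the field generated by the coordinates -/
theorem exists_D0 {k K : Type} [Field k] [CharZero k] [Field K] [Algebra k K]
    (htr : Algebra.trdeg k K = 1) (D : Derivation k K K) (x : Fin 3 → K) (i0 : Fin 3)
    (hxt : Transcendental k (x i0)) (hμ : D (x i0) ≠ 0) (F : IntermediateField k K)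
    (hF : F = IntermediateField.adjoin k (Set.range x)) :
    ∃ D0 : Derivation k F F, ∀ z : F, D (z : K) = D (x i0) * (D0 z : K) := by
  have hxF : ∀ i, x i ∈ F := fun i => by
    rw [hF]
    exact IntermediateField.subset_adjoin _ _ ⟨i, rfl⟩
  let D1 : Derivation k K K := (D (x i0))⁻¹ • D
  have hD1 : ∀ z, D1 z = (D (x i0))⁻¹ * D z := fun z => rfl
  have hal := alg_adjoin htr (x i0) hxt
  let E := IntermediateField.adjoin k {x i0}
  have hE1 : ∀ y ∈ E, y ∈ F ∧ D1 y ∈ F := by
    apply der_adjoin D1 {x i0} F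
    · intro y hy
      rw [Set.mem_singleton_iff.1 hy]
      exact hxF i0
    · intro y hy
      rw [Set.mem_singleton_iff.1 hy, hD1, inv_mul_cancel₀ hμ]
      exact F.one_mem
  have hstab : ∀ y ∈ F, D1 y ∈ F := by
    intro y hy
    have h1 := der_adjoin D1 (Set.range x) F
      (by rintro _ ⟨i, rfl⟩; exact hxF i)
      (by
        rintro _ ⟨i, rfl⟩
        exact der_alg D1 E F (fun y hy => (hE1 y hy).1) (fun y hy => (hE1 y hy).2) (x i) (hxF i)
          (hal.isAlgebraic (x i)).isIntegral)
    exact (h1 y (hF ▸ hy)).2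
  let D0 : Derivation k F F := Derivation.mk'
    { toFun := fun z => ⟨D1 (z : K), hstab _ z.2⟩
      map_add' := fun y z => Subtype.ext (D1.map_add y z)
      map_smul' := fun c z => Subtype.ext (D1.map_smul c z) }
    (fun y z => Subtype.ext (D1.leibniz y z))
  refine ⟨D0, fun z => ?_⟩
  have h1 : ((D0 z : F) : K) = (D (x i0))⁻¹ * D (z : K) := rfl
  rw [h1, mul_inv_cancel_left₀ hμ]

theorem pf_PRM (hEXT : T_EXT) : T_PRM := by
  intro k _ _ _ G d hG K _ _ _ htr D hD x S hx
  classical
  by_cases hc : ∀ i, x i ∈ Set.range (algebraMap k K)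
  · exact Or.inl hc
  right
  push Not at hc
  obtain ⟨i0, hi0⟩ := hc
  have hxt : Transcendental k (x i0) := fun ha => hi0 (mem_range_of_alg ha)
  have hμ : D (x i0) ≠ 0 := der_ne htr (x i0) hxt D hD
  let F := IntermediateField.adjoin k (Set.range x)
  have hxF : ∀ i, x i ∈ F := fun i => IntermediateField.subset_adjoin _ _ ⟨i, rfl⟩
  obtain ⟨D0, hD0⟩ := exists_D0 htr D x i0 hxt hμ F rfl
  have hess : Algebra.EssFiniteType k F := by
    rw [IntermediateField.essFiniteType_iff]
    exact ⟨(Set.finite_range x).toFinset, by rw [Set.Finite.coe_toFinset]⟩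
  let x0 : Fin 3 → F := fun i => ⟨x i, hxF i⟩
  have hιx : ∀ i, F.val (x0 i) = x i := fun i => rfl
  have htrF : Algebra.trdeg k F = 1 := by
    apply le_antisymm
    · rw [← htr]
      exact trdeg_le_of_injective F.val F.val.injective
    · rw [Cardinal.one_le_iff_ne_zero, trdeg_ne_zero_iff]
      refine ⟨⟨⟨x i0, hxF i0⟩, ?_⟩⟩
      intro halg
      exact hxt (halg.algebraMap (A := K))
  have hval : ∀ P : MvPolynomial (Fin 3) k, F.val (aeval x0 P) = aeval x P := by
    intro P
    rw [← AlgHom.comp_apply, MvPolynomial.comp_aeval]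
    rfl
  -- places
  have hE := hEXT k F K F.val htrF htr
  choose v e he hve using hE
  have hpole : ∀ w, poleOrder (v w) x = e w * poleOrder w x0 := fun w =>
    pole_ext F.val w (v w) (e w) (hve w) x0 x hιx
  let T : Set (DV k F) := {w | w.ord (aeval x0 G) ≠ -(d * poleOrder w x0)}
  have hmem : ∀ w ∈ T, v w ∈ S := by
    intro w hw
    by_contra hvS
    apply hw
    have h1 := hx.off (v w) hvS
    rw [← hval, hve, hpole] at h1
    have h2 : (e w : ℤ) ≠ 0 := by
      have := he w
      omega
    apply mul_left_cancel₀ h2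
    rw [h1]
    push_cast
    ring
  have hinj : Function.Injective v := by
    intro w w' hww
    refine place_inj F.val w w' (v w) (e w) (e w') (he w) (he w') (hve w) ?_
    rw [hww]
    exact hve w'
  have hTfin : T.Finite := Set.Finite.of_injOn (f := v) (t := (S : Set (DV k K)))
    (fun w hw => hmem w hw) hinj.injOn S.finite_toSet
  refine ⟨F, inferInstance, inferInstance, hess, F.val, x0, D0, D (x i0), hTfin.toFinset,
    htrF, ?_, hιx, ?_, hμ, hD0, ⟨?_, ?_, ?_⟩, ?_⟩
  · intro h0
    have h1 := hD0 (x0 i0)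
    rw [h0] at h1
    apply hμ
    have h2 : ((0 : Derivation k F F) (x0 i0) : K) = 0 := rfl
    rw [h2, mul_zero] at h1
    exact h1
  · unfold Prim
    apply IntermediateField.lift_injective F
    rw [IntermediateField.lift_adjoin, IntermediateField.lift_top, ← Set.range_comp]
    rfl
  · obtain ⟨j, hj⟩ := hx.one
    exact ⟨j, Subtype.ext hj⟩
  · intro h0
    apply hx.ne
    rw [← hval, h0, map_zero]
  · intro w hw
    by_contra h1
    exact hw (hTfin.mem_toFinset.2 h1)
  · refine Finset.card_le_card_of_injOn v ?_ hinj.injOn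
    intro w hw
    exact hmem w (hTfin.mem_toFinset.1 hw)

end Pool.Agent.H10.SM
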